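import Pool.Agent.helper53.HFX.Bridge

/-!
# MP_7ea459_al, Q1: almost no finite hyperfield is a quotient hyperfield, with an exponential rate

`numHyp r` is `H_r`, the number of the hyperfields of order `r + 1` up to isomorphism, and `numQuot r` is `Q_r`, the number of
those which are isomorphic to `K / G` for a field `K` (finite or infinite, in any universe) and a subgroup `G` of `Kˣ`
(definitions in `Pool/Agent/helper53/HFX/Defs.lean`).
-/

set_option autoImplicit false

namespace Pool.Agent.Results.MP_7ea459_al.QuotientHyperfieldsRare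

open Pool.Agent.helper53.HFX Filter Topology

universe v

/-- `Q_r ≤ 2 ^ (1 - r / 12) H_r` for every `r ≥ 4096`; so `Q_r / H_r → 0`. -/
theorem result :
    (∀ r : ℕ, 4096 ≤ r → (numQuot.{v} r : ℝ) ≤ (2 : ℝ) ^ (1 - (r : ℝ) / 12) * (numHyp r : ℝ)) ∧
    Tendsto (fun r : ℕ => (numQuot.{v} r : ℝ) / (numHyp r : ℝ)) atTop (𝓝 0) := by
  refine ⟨fun r hr => ?_, limit⟩
  have h : (2 : ℝ) ^ (1 - (r : ℝ) / 12) = 2 * (2 : ℝ) ^ (-(r : ℝ) / 12) := by
    rw [show (1 : ℝ) - (r : ℝ) / 12 = 1 + -(r : ℝ) / 12 by ring, Real.rpow_add (by norm_num), Real.rpow_one]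
  rw [h]
  exact bound hr

end Pool.Agent.Results.MP_7ea459_al.QuotientHyperfieldsRare
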